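import Pool.Agent.V11319.HFGAlg2
import Pool.Agent.V11319.HvNorm

/-!
A holomorphically finitely generated Hopf algebra whose antipode is not injective.

The example is the Arens-Michael envelope of an affine Hopf algebra with non-injective antipode;
the new ingredient is a submultiplicative seminorm on that algebra which does not vanish on an
element killed by the antipode.
-/

open Pool.Agent.TH12.Hopf Pool.Agent.V11319 Pool.Agent.V11319.Env

namespace Pool.Agent.Results.MP_a6183d_an.AntipodeNotInjective

lemma firstCountable_of_isHFG {A : Type} [Ring A] [Algebra ℂ A] [TopologicalSpace A]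
    (h : IsHFG A) : FirstCountableTopology A := by
  obtain ⟨n, I, _, _, e, he⟩ := h
  refine ⟨fun y => ?_⟩
  obtain ⟨x, rfl⟩ := he.surjective y
  have h1 := he.map_nhds_eq x
  have h2 : (nhds (e (Ideal.Quotient.mk I x))).IsCountablyGenerated := by
    rw [← h1]
    infer_instance
  exact h2

lemma not_injective_of (H : Type) [Ring H] [HopfAlgebra ℂ H] (c : H)
    (hc : HopfAlgebra.antipode ℂ c = 0) (p : SubmulSeminorm H) (hp : p.1 c ≠ 0) :
    ¬ Function.Injective (antipodeAM H) := by
  intro hinj
  apply toC_ne_zero p hp
  apply hinj
  rw [antipodeAM_toC, hc, map_zero, map_zero]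

lemma main_of (H : Type) [Ring H] [HopfAlgebra ℂ H] (hf : Algebra.FiniteType ℂ H) (c : H)
    (hc : HopfAlgebra.antipode ℂ c = 0) (p : SubmulSeminorm H) (hp : p.1 c ≠ 0) :
    ∃ (H : Type) (_ : Ring H) (_ : Algebra ℂ H) (_ : UniformSpace H),
      FirstCountableTopology H ∧ IsHolFG H ∧
        ∃ S : HopfAlgHat H, ¬ Function.Injective S.antipode :=
  ⟨AM H, inferInstance, inferInstance, inferInstance,
    firstCountable_of_isHFG (isHFG_AM H hf), isHolFG_AM H hf, hopfAlgAM H,
    not_injective_of H c hc p hp⟩

/-- **Negative answer to Q1.** There is a Frechet algebra `H` which is holomorphically finitely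
generated and which carries a structure of Hopf algebra for the complete projective tensor product
whose antipode is not injective, hence not bijective. (That `H` is complete, Hausdorff and locally
convex is part of `HopfAlgHat`.) -/
theorem result : ∃ (H : Type) (_ : Ring H) (_ : Algebra ℂ H) (_ : UniformSpace H),
    FirstCountableTopology H ∧ IsHolFG H ∧
      ∃ S : HopfAlgHat H, ¬ Function.Injective S.antipode := by
  refine @main_of (Hv ℂ) _ (hopf (Fv ℂ)) finiteType cv anti_cv ⟨pS, pS_mul⟩ ?_
  have := one_le_pS_cv
  intro h
  change pS cv = 0 at h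
  rw [h] at this
  linarith

end Pool.Agent.Results.MP_a6183d_an.AntipodeNotInjective
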